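import Pool.Agent.Y481.DR.Defs
import Pool.Agent.Y691.CG.KFF

/-!
# Project DR: traces in terms of kernels with the functions of the children
(job DR-KFV + DR-KFFV)

`t_KFV : S_KFV` and `t_KFFV : S_KFFV`.  Adapted from `Pool.Agent.Y590.CB.KF` and
`Pool.Agent.Y691.CG.KFF`.
-/

set_option autoImplicit false

namespace Pool.Agent.Y899.DR

open Finset MeasureTheory
open Pool.Agent.W711.HT hiding XX
open Pool.Agent.Y472
open Pool.Agent.Y590.CB (Dw kh_eq lst1 lst2 lst3 lst4 lst_smul lst_sub trace_sub Qp Qp_sq Zg Zg_sq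
  Dm rev_val Px_sub Qp_Zg Qp_Dm Dm_Qp wts_length prod_Ph)
open Pool.Agent.Y481 (itI wts cw)
open Pool.Agent.Y721.VC (Pr Pr_congr Pr_update trace_lin upp_fsum integrable_path)
open Pool.Agent.W398.HT (Rp_diff)
open Pool.Agent.Y481.DR
open Pool.Agent.Y691.CG (Df kF_eq Dmf prod_PhF)
open scoped Real

/-! ### the iterated integral as a trace -/

/-- the path integral of `Y R_x R_y` -/
noncomputable def Uv (N : ℕ) (V : Vx) (x y : ℕ) : ℂ :=
  upp (1 / N) fun ψ => Ea V.1 N ψ * (V.2 N ψ * (Rp N x ψ * Rp N y ψ)) * kr N ψ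

/-- the matrix of a vertex -/
noncomputable def Mv (N : ℕ) (D : ℕ → ℂ) (V : Vx) : Matrix (Fin N) (Fin N) ℂ :=
  fun x y => Uv N V x y * D y

/-- the rank one matrix of a vertex -/
noncomputable def Av (N : ℕ) (D : ℕ → ℂ) (ψ : ℂ) : Matrix (Fin N) (Fin N) ℂ :=
  Matrix.vecMulVec (fun x => Rp N x ψ) (fun y => Rp N y ψ * D y)

/-- the kernel with the weights `D` -/
noncomputable def kD (N : ℕ) (D : ℕ → ℂ) (ψ ψ' : ℂ) : ℂ :=
  ∑ t : Fin N, Rp N t ψ * D t * Rp N t ψ'

theorem Av_mul (N : ℕ) (D : ℕ → ℂ) (ψ₀ ψ ψ' : ℂ) :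
    Matrix.vecMulVec (fun x : Fin N => Rp N x ψ₀) (fun y : Fin N => Rp N y ψ * D y) *
      Av N D ψ' = kD N D ψ ψ' • Matrix.vecMulVec (fun x : Fin N => Rp N x ψ₀)
        (fun y : Fin N => Rp N y ψ' * D y) := by
  ext x y
  rw [Matrix.mul_apply, Matrix.smul_apply, Matrix.vecMulVec_apply, kD,
    smul_eq_mul, Finset.sum_mul]
  refine Finset.sum_congr rfl fun t _ => ?_
  rw [Av, Matrix.vecMulVec_apply, Matrix.vecMulVec_apply]
  ring

theorem Pr_Av (N : ℕ) (D : ℕ → ℂ) (ψ : ℕ → ℂ) (m : ℕ) :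
    Pr (fun i => Av N D (ψ i)) (m + 1) = (∏ j ∈ range m, kD N D (ψ j) (ψ (j + 1))) •
      Matrix.vecMulVec (fun x : Fin N => Rp N x (ψ 0))
        (fun y : Fin N => Rp N y (ψ m) * D y) := by
  induction m with
  | zero =>
    simp only [Pr, one_mul, Finset.range_zero, Finset.prod_empty, one_smul, Av]
  | succ m ih =>
    rw [Pr, ih, Matrix.smul_mul, Av_mul, smul_smul, Finset.prod_range_succ]

theorem trace_Av (N : ℕ) (D : ℕ → ℂ) (ψ : ℕ → ℂ) (n : ℕ) (hn : 1 ≤ n) :
    (Pr (fun i => Av N D (ψ i)) n).trace = ∏ j ∈ range n, kD N D (ψ j) (ψ ((j + 1) % n)) := by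
  obtain ⟨m, rfl⟩ : ∃ m, n = m + 1 := ⟨n - 1, by omega⟩
  rw [Pr_Av, Matrix.trace_smul, Finset.prod_range_succ, Nat.mod_self, smul_eq_mul]
  congr 1
  · refine Finset.prod_congr rfl fun j hj => ?_
    rw [Finset.mem_range] at hj
    rw [Nat.mod_eq_of_lt (by omega)]
  · rw [Matrix.trace, kD]
    refine Finset.sum_congr rfl fun x _ => ?_
    rw [Matrix.diag_apply, Matrix.vecMulVec_apply]
    ring

theorem Pr_smul {m : Type*} [Fintype m] [DecidableEq m] (c : ℕ → ℂ) (A : ℕ → Matrix m m ℂ)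
    (n : ℕ) : Pr (fun i => c i • A i) n = (∏ i ∈ range n, c i) • Pr A n := by
  induction n with
  | zero => simp only [Pr, Finset.range_zero, Finset.prod_empty, one_smul]
  | succ n ih =>
    rw [Pr, ih, Pr, Finset.prod_range_succ, Matrix.smul_mul, Matrix.mul_smul, smul_smul]

/-- the path integral of a combination of products `Y R_d R_e` -/
theorem upp_linV {N : ℕ} (hN : 1 ≤ N) (V : Vx) (hV : Continuous (V.2 N)) {ι : Type*}
    (s : Finset ι) (c : ι → ℂ) (d e : ι → ℕ) :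
    upp (1 / N) (fun ψ => Ea V.1 N ψ *
      (∑ i ∈ s, c i * (V.2 N ψ * (Rp N (d i) ψ * Rp N (e i) ψ))) * kr N ψ) =
      ∑ i ∈ s, c i * Uv N V (d i) (e i) := by
  have e1 : (fun ψ => Ea V.1 N ψ *
      (∑ i ∈ s, c i * (V.2 N ψ * (Rp N (d i) ψ * Rp N (e i) ψ))) * kr N ψ) =
      fun ψ => ∑ i ∈ s, c i *
        (Ea V.1 N ψ * (V.2 N ψ * (Rp N (d i) ψ * Rp N (e i) ψ)) * kr N ψ) := by
    funext ψ
    rw [Finset.mul_sum, Finset.sum_mul]
    refine Finset.sum_congr rfl fun i _ => ?_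
    ring
  rw [e1]
  have hc : ∀ i, Continuous fun ψ => V.2 N ψ * (Rp N (d i) ψ * Rp N (e i) ψ) :=
    fun i => hV.mul ((Rp_diff N _).continuous.mul (Rp_diff N _).continuous)
  exact upp_fsum (1 / N) s c
    (fun i ψ => Ea V.1 N ψ * (V.2 N ψ * (Rp N (d i) ψ * Rp N (e i) ψ)) * kr N ψ)
    (fun i _ => (integrable_path hN V.1 (hc i)).1)
    (fun i _ => (integrable_path hN V.1 (hc i)).2.1)
    (fun i _ => (integrable_path hN V.1 (hc i)).2.2)

/-- the factors of the product after integrating the variables number `< j` -/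
noncomputable def Fv (v : ℕ → Vx) (N : ℕ) (D : ℕ → ℂ) (j : ℕ) (ψ : ℕ → ℂ) (i : ℕ) :
    Matrix (Fin N) (Fin N) ℂ := if i < j then Mv N D (v i) else (v i).2 N (ψ i) • Av N D (ψ i)

/-- the integrand -/
noncomputable def Wv (v : ℕ → Vx) (N n : ℕ) (D : ℕ → ℂ) (ψ : ℕ → ℂ) : ℂ :=
  (∏ i ∈ range n, kD N D (ψ i) (ψ ((i + 1) % n))) * ∏ i ∈ range n, (v i).2 N (ψ i)

theorem itI_V (v : ℕ → Vx) (N n : ℕ) (D : ℕ → ℂ) (hN : 1 ≤ N) (hn : 1 ≤ n)
    (hv : ∀ j < n, Continuous ((v j).2 N)) (j : ℕ) (hj : j ≤ n) (ψ : ℕ → ℂ) :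
    itI (fun i => (v i).1) N j (Wv v N n D) ψ = (Pr (Fv v N D j ψ) n).trace := by
  induction j generalizing ψ with
  | zero =>
    simp only [itI]
    have e : Fv v N D 0 ψ = fun i => (v i).2 N (ψ i) • Av N D (ψ i) := by
      funext i
      simp only [Fv]
      rw [if_neg (by omega)]
    rw [e, Pr_smul, Matrix.trace_smul, trace_Av N D ψ n hn, Wv, smul_eq_mul, mul_comm]
  | succ j ih =>
    simp only [itI]
    have hup : ∀ w : ℂ, Fv v N D j (Function.update ψ j w) =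
        Function.update (Fv v N D (j + 1) ψ) j ((v j).2 N w • Av N D w) := by
      intro w
      funext i
      rcases lt_trichotomy i j with h | h | h
      · rw [Function.update_of_ne (by omega)]
        simp only [Fv]
        rw [if_pos h, if_pos (by omega)]
      · subst h
        rw [Function.update_self]
        simp only [Fv]
        rw [if_neg (by omega), Function.update_self]
      · rw [Function.update_of_ne (by omega)]
        simp only [Fv]
        rw [if_neg (by omega), if_neg (by omega), Function.update_of_ne (by omega)]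
    obtain ⟨P, S, h⟩ := Pr_update (Fv v N D (j + 1) ψ) j n (by omega)
    obtain ⟨Q, hQ0⟩ := trace_lin P S
    have hQ : ∀ M : Matrix (Fin N) (Fin N) ℂ,
        (Pr (Function.update (Fv v N D (j + 1) ψ) j M) n).trace =
          ∑ p : Fin N × Fin N, Q p.1 p.2 * M p.1 p.2 := fun M => by rw [h M, hQ0 M]
    have e1 : ∀ w, itI (fun i => (v i).1) N j (Wv v N n D) (Function.update ψ j w) =
        ∑ q : Fin N × Fin N,
          (Q q.1 q.2 * D q.2) * ((v j).2 N w * (Rp N (q.1 : ℕ) w * Rp N (q.2 : ℕ) w)) := by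
      intro w
      rw [ih (by omega), hup, hQ]
      refine Finset.sum_congr rfl fun p _ => ?_
      rw [Matrix.smul_apply, Av, Matrix.vecMulVec_apply, smul_eq_mul]
      ring
    simp only [e1]
    rw [upp_linV hN (v j) (hv j (by omega)) Finset.univ
      (fun q : Fin N × Fin N => Q q.1 q.2 * D q.2)
      (fun q => (q.1 : ℕ)) (fun q => (q.2 : ℕ))]
    have e2 : Fv v N D (j + 1) ψ = Function.update (Fv v N D (j + 1) ψ) j (Mv N D (v j)) := by
      funext i
      by_cases h : i = j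
      · subst h
        rw [Function.update_self]
        simp only [Fv]
        rw [if_pos (by omega)]
      · rw [Function.update_of_ne h]
    rw [e2, hQ]
    refine Finset.sum_congr rfl fun p _ => ?_
    rw [Mv]
    ring

/-! ### lists -/

/-- the vertices -/
def vl (ls : List (Vx × Vx)) : List Vx := (ls.map fun p => [p.1, p.2]).flatten

/-- the vertex number `j` -/
def vj (ls : List (Vx × Vx)) (j : ℕ) : Vx := (vl ls).getD j (0, fun _ _ => 1)

theorem vl_length (ls : List (Vx × Vx)) : (vl ls).length = 2 * ls.length := by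
  unfold vl
  induction ls with
  | nil => rfl
  | cons q ls ih =>
    simp only [List.map_cons, List.flatten_cons, List.length_append, List.length_cons,
      List.length_nil]
    rw [ih]
    omega

theorem vl_prod {R : Type*} [Monoid R] (ls : List (Vx × Vx)) (g : Vx → R) :
    ((vl ls).map g).prod = (ls.map fun q => g q.1 * g q.2).prod := by
  unfold vl
  induction ls with
  | nil => rfl
  | cons q ls ih =>
    simp only [List.map_cons, List.flatten_cons, List.map_append, List.prod_append, List.prod_cons,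
      List.map_nil, List.prod_nil, mul_one]
    rw [ih]

theorem getD_map' {α β : Type*} (f : α → β) (l : List α) (d : α) (j : ℕ) :
    (l.map f).getD j (f d) = f (l.getD j d) := by
  rw [List.getD_eq_getElem?_getD, List.getD_eq_getElem?_getD, List.getElem?_map]
  cases l[j]? <;> rfl

theorem cw_wl (ls : List (Vx × Vx)) (j : ℕ) : cw (wl ls) j = (vj ls j).1 := by
  have e : wts (wl ls) = (vl ls).map Prod.fst := by
    unfold wts wl vl
    rw [List.map_flatten, List.map_map, List.map_map]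
    rfl
  unfold cw vj
  rw [e]
  exact getD_map' Prod.fst (vl ls) (0, fun _ _ => 1) j

theorem vy_eq (ls : List (Vx × Vx)) (j : ℕ) : vy ls j = (vj ls j).2 := by
  have e : (ls.map fun p => [p.1.2, p.2.2]).flatten = (vl ls).map Prod.snd := by
    unfold vl
    rw [List.map_flatten, List.map_map]
    rfl
  unfold vy vj
  rw [e]
  exact getD_map' Prod.snd (vl ls) (0, fun _ _ => 1) j

theorem vj_mem {ls : List (Vx × Vx)} {j : ℕ} (hj : j < 2 * ls.length) : vj ls j ∈ vl ls := by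
  unfold vj
  rw [List.getD_eq_getElem _ _ (by rw [vl_length]; exact hj)]
  exact List.getElem_mem _

theorem vl_AnL {ls : List (Vx × Vx)} (h : AnL ls) : ∀ V ∈ vl ls,
    (∀ N, Differentiable ℂ (V.2 N)) ∧ ∀ N ψ, V.2 N (-ψ) = V.2 N ψ := by
  intro V hV
  unfold vl at hV
  rw [List.mem_flatten] at hV
  obtain ⟨l, hl, hVl⟩ := hV
  rw [List.mem_map] at hl
  obtain ⟨p, hp, rfl⟩ := hl
  have := h p hp
  rcases List.mem_cons.1 hVl with h1 | h1
  · rw [h1]
    exact ⟨this.1, this.2.2.1⟩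
  · rcases List.mem_cons.1 h1 with h2 | h2
    · rw [h2]
      exact ⟨this.2.1, this.2.2.2⟩
    · exact absurd h2 List.not_mem_nil

theorem Pr_listV {m : Type*} [Fintype m] [DecidableEq m] (g : Vx → Matrix m m ℂ) (d : Vx)
    (l : List Vx) : Pr (fun i => g (l.getD i d)) l.length = (l.map g).prod := by
  have h : ∀ (f : ℕ → Matrix m m ℂ) (k : ℕ), Pr f k = ((List.range k).map f).prod := by
    intro f k
    induction k with
    | zero => rfl
    | succ k ih =>
      rw [Pr, ih, List.range_succ, List.map_append, List.prod_append]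
      simp
  rw [h]
  congr 1
  apply List.ext_getElem
  · simp
  · intro i h1 h2
    rw [List.getElem_map, List.getElem_map, List.getElem_range]
    rw [List.length_map] at h2
    rw [List.getD_eq_getElem _ _ h2]

/-- the iterated integral is a trace -/
theorem XV_gen {N : ℕ} (hN : 1 ≤ N) (ls : List (Vx × Vx)) (hl : ls ≠ []) (hA : AnL ls)
    (D : ℕ → ℂ) :
    itI (cw (wl ls)) N (2 * ls.length) (fun ψ => (∏ i ∈ range (2 * ls.length),
      kD N D (ψ i) (ψ ((i + 1) % (2 * ls.length)))) * YP ls N ψ) 0 =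
      ((ls.map fun q => Mv N D q.1 * Mv N D q.2).prod).trace := by
  have hn : 1 ≤ 2 * ls.length := by
    rcases ls with _ | ⟨x, l⟩
    · exact absurd rfl hl
    · simp only [List.length_cons]
      omega
  have e1 : cw (wl ls) = fun i => (vj ls i).1 := funext fun i => cw_wl ls i
  have e2 : (fun ψ : ℕ → ℂ => (∏ i ∈ range (2 * ls.length),
      kD N D (ψ i) (ψ ((i + 1) % (2 * ls.length)))) * YP ls N ψ) =
      Wv (vj ls) N (2 * ls.length) D := by
    funext ψ
    unfold Wv YP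
    congr 1
    refine Finset.prod_congr rfl fun i _ => ?_
    rw [vy_eq]
  rw [e1, e2, itI_V (vj ls) N (2 * ls.length) D hN hn
    (fun j hj => ((vl_AnL hA _ (vj_mem hj)).1 N).continuous) _ le_rfl 0, ← vl_prod ls (Mv N D),
    ← Pr_listV (Mv N D) (0, fun _ _ => 1), vl_length]
  congr 1
  apply Pr_congr
  intro j hj
  simp only [Fv]
  rw [if_pos hj]
  rfl

/-! ### the reduction -/

/-- the path integrals -/
noncomputable def Uw (N : ℕ) (V : Vx) : Matrix (Fin N) (Fin N) ℂ := fun x y => Uv N V x y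

theorem Uw_apply (N : ℕ) (V : Vx) (x y : Fin N) : Uw N V x y = Uv N V x y := rfl

theorem Mv_eq (N : ℕ) (D : ℕ → ℂ) (V : Vx) :
    Mv N D V = Uw N V * Matrix.diagonal fun i : Fin N => D i := by
  ext x y
  rw [Matrix.mul_diagonal]
  rfl

/-- `MAV` with the rows reversed -/
noncomputable def ArV (N : ℕ) (V : Vx) : Matrix (Fin N) (Fin N) ℂ :=
  (MAV N V).submatrix Fin.revPerm id

/-- `MBV` with the columns reversed -/
noncomputable def BrV (N : ℕ) (χ : ℂ) (V : Vx) : Matrix (Fin N) (Fin N) ℂ :=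
  (MBV N χ V).submatrix id Fin.revPerm

theorem cV_rev (N : ℕ) (V : Vx) {y d : ℕ} (hd : d < N) :
    cV N V y (N - 1 - d) = (-1) ^ (d + y) / (2 * π) * Uv N V d y := by
  have e : N - 1 - (N - 1 - d) = d := by omega
  unfold cV Uv
  rw [e]
  congr 1
  congr 1
  funext ψ
  ring

theorem Uv_symm (N : ℕ) (V : Vx) (x y : ℕ) : Uv N V x y = Uv N V y x := by
  unfold Uv
  congr 1
  funext ψ
  ring

theorem QAQV {N : ℕ} (V : Vx) :
    Qp N * ArV N V * Qp N = (1 / (2 * π) : ℂ) • (Qp N * (Zg N * Uw N V * Zg N) * Qp N) := by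
  ext x y
  simp only [Qp, Zg, Matrix.diagonal_mul, Matrix.mul_diagonal, Matrix.smul_apply, smul_eq_mul]
  by_cases hx : (x : ℕ) ≤ (N - 1) / 2
  · by_cases hy : (y : ℕ) ≤ (N - 1) / 2
    · rw [if_pos hx, if_pos hy]
      have hxN := x.isLt
      have hle : y ≤ Fin.revPerm x := by
        rw [Fin.le_def, rev_val]
        omega
      have : ArV N V x y = cV N V y (N - 1 - (x : ℕ)) := by
        rw [ArV, Matrix.submatrix_apply, MAV, id, if_pos hle, rev_val]
      rw [this, cV_rev N V hxN, Uw_apply, pow_add]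
      ring
    · rw [if_neg hy]
      ring
  · rw [if_neg hx]
    ring

theorem QBQV {N : ℕ} (hN : 2 ≤ N) (χ : ℂ) (V : Vx) :
    Qp N * BrV N χ V * Qp N =
      ((N : ℂ) ^ 2 / (2 * π) : ℂ) • (Zg N * (Dm N χ * Uw N V * Dm N χ) * Zg N) := by
  ext y x
  simp only [Qp, Zg, Dm, Matrix.diagonal_mul, Matrix.mul_diagonal, Matrix.smul_apply, smul_eq_mul]
  by_cases hx : (x : ℕ) ≤ (N - 1) / 2
  · by_cases hy : (y : ℕ) ≤ (N - 1) / 2
    · rw [if_pos hx, if_pos hy]
      have hxN := x.isLt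
      have hle : y ≤ Fin.revPerm x := by
        rw [Fin.le_def, rev_val]
        omega
      have : BrV N χ V y x = (∏ t ∈ Ioc (y : ℕ) (N - 1 - (x : ℕ)), Ph N χ t) *
          cV N V y (N - 1 - (x : ℕ)) := by
        rw [BrV, Matrix.submatrix_apply, MBV, id, if_pos hle, rev_val]
      rw [this, cV_rev N V hxN, prod_Ph hN χ hy hx, Uw_apply, pow_add, Dw, Dw, if_pos hx,
        if_pos hy, Uv_symm]
      ring
    · rw [if_neg hy, show Dw N χ y = 0 by rw [Dw, if_neg hy]]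
      ring
  · rw [if_neg hx, show Dw N χ x = 0 by rw [Dw, if_neg hx]]
    ring

/-- KFV -/
theorem t_KFV : S_KFV := by
  intro N ls χ hN hl hA
  have e0 : XV ls N χ = ((ls.map fun q => Mv N (Dw N χ) q.1 * Mv N (Dw N χ) q.2).prod).trace := by
    rw [← XV_gen (by omega) ls hl hA (Dw N χ), XV]
    congr 1
    funext ψ
    congr 1
    unfold Wk
    refine Finset.prod_congr rfl fun i _ => ?_
    rw [kh_eq (by omega), kD]
  rw [e0, TmV, ← trace_sub Fin.revPerm, ← lst_sub]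
  have e1 : ∀ q : Vx × Vx,
      (Matrix.diagonal (fun i : Fin N => if N - 1 - (N - 1) / 2 ≤ (i : ℕ) then (1 : ℂ) else 0) *
      MAV N q.1 * Matrix.diagonal (fun i : Fin N => if (i : ℕ) ≤ (N - 1) / 2 then (1 : ℂ) else 0) *
      MBV N χ q.2).submatrix Fin.revPerm Fin.revPerm =
      Qp N * (ArV N q.1 * Qp N * BrV N χ q.2) := by
    intro q
    rw [ArV, BrV, ← Px_sub N, mul_assoc, mul_assoc, ← Matrix.submatrix_mul_equiv _ _ _ Fin.revPerm _]
    congr 1
    rw [Px_sub N, ← mul_assoc, ← Matrix.submatrix_mul_equiv _ _ _ (Equiv.refl _) _]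
    congr 1
  simp only [e1]
  rw [lst4 (Qp N) (Qp_sq N) (fun q : Vx × Vx => ArV N q.1 * Qp N * BrV N χ q.2) ls hl]
  have hMv : ∀ V : Vx, Mv N (Dw N χ) V = Uw N V * Dm N χ := fun V => Mv_eq N (Dw N χ) V
  have e2 : ∀ q : Vx × Vx, Qp N * (ArV N q.1 * Qp N * BrV N χ q.2) * Qp N =
      ((N : ℂ) / (2 * π)) ^ 2 •
        ((Qp N * Zg N) * (Mv N (Dw N χ) q.1 * Mv N (Dw N χ) q.2) * Zg N) := by
    intro q
    have h1 : Qp N * (ArV N q.1 * Qp N * BrV N χ q.2) * Qp N =
        (Qp N * ArV N q.1 * Qp N) * (Qp N * BrV N χ q.2 * Qp N) := by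
      calc Qp N * (ArV N q.1 * Qp N * BrV N χ q.2) * Qp N =
          Qp N * ArV N q.1 * Qp N * BrV N χ q.2 * Qp N := by simp only [mul_assoc]
        _ = Qp N * ArV N q.1 * (Qp N * Qp N) * BrV N χ q.2 * Qp N := by rw [Qp_sq]
        _ = _ := by simp only [mul_assoc]
    rw [h1, QAQV, QBQV hN, Matrix.smul_mul, Matrix.mul_smul, smul_smul, hMv, hMv]
    congr 1
    · ring
    · calc Qp N * (Zg N * Uw N q.1 * Zg N) * Qp N * (Zg N * (Dm N χ * Uw N q.2 * Dm N χ) * Zg N) =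
          Qp N * Zg N * Uw N q.1 * (Zg N * (Qp N * Zg N) * Dm N χ) * Uw N q.2 * Dm N χ * Zg N := by
            simp only [mul_assoc]
        _ = Qp N * Zg N * Uw N q.1 * ((Zg N * Zg N) * (Qp N * Dm N χ)) * Uw N q.2 * Dm N χ *
            Zg N := by rw [Qp_Zg]; simp only [mul_assoc]
        _ = Qp N * Zg N * Uw N q.1 * Dm N χ * Uw N q.2 * Dm N χ * Zg N := by
            rw [Zg_sq, Qp_Dm, one_mul]
        _ = _ := by simp only [mul_assoc]
  simp only [e2]
  rw [lst_smul (((N : ℂ) / (2 * π)) ^ 2)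
    (fun q : Vx × Vx => (Qp N * Zg N) * (Mv N (Dw N χ) q.1 * Mv N (Dw N χ) q.2) * Zg N) ls,
    Matrix.trace_smul, ← pow_mul, smul_eq_mul]
  congr 1
  refine lst3 (Qp N * Zg N) (Zg N)
    (fun q : Vx × Vx => Mv N (Dw N χ) q.1 * Mv N (Dw N χ) q.2) ls hl ?_
  intro q
  have h2 : Zg N * (Qp N * Zg N) = Qp N := by
    rw [Qp_Zg, ← mul_assoc, Zg_sq, one_mul]
  rw [h2, hMv q.2]
  simp only [mul_assoc, Dm_Qp]

/-! ### the full kernel -/

/-- the integrals with too many factors vanish -/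
theorem Uv_zero {N x y : ℕ} (V : Vx) (h1 : Differentiable ℂ (V.2 N))
    (h2 : ∀ ψ, V.2 N (-ψ) = V.2 N ψ) (hx : x < N) (h : N - 1 - x < y) : Uv N V x y = 0 := by
  set n := N - 1 - x with hn
  have hnN : n < N := by omega
  have hN : 0 < N := by omega
  have hxn : N - 1 - n = x := by omega
  have key : ∀ ψ : ℂ, Complex.cos (N * (ψ + π) / 2) ≠ 0 →
      Ea V.1 N ψ * (V.2 N ψ * (Rp N x ψ * Rp N y ψ)) * kr N ψ =
        (-1) ^ N * (Ea V.1 N ψ * V.2 N ψ * Pool.Agent.W346.HT.Qp N n y ψ *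
          (2 * Complex.sin ψ)) := by
    intro ψ hψ
    have hm := Pool.Agent.W346.HT.Rp_mul hnN h ψ
    rw [hxn] at hm
    unfold kr
    rw [hm]
    field_simp
  unfold Uv
  rw [Pool.Agent.W346.HT.upp_congr (g := fun ψ => (-1) ^ N * (Ea V.1 N ψ * V.2 N ψ *
      Pool.Agent.W346.HT.Qp N n y ψ * (2 * Complex.sin ψ)))
    (fun y => key _ (Pool.Agent.W346.HT.cos_ne1 N y))
    (fun x => key _ (Pool.Agent.W346.HT.cos_ne2 hN x))
    (fun y => key _ (Pool.Agent.W346.HT.cos_ne3 N y)),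
    Pool.Agent.W346.HT.upp_const_mul, Pool.Agent.W346.HT.upp_odd, mul_zero]
  · exact (((Pool.Agent.W346.HT.Ea_diff V.1 N).mul h1).mul
      (Pool.Agent.W346.HT.Qp_diff N n y)).mul (Complex.differentiable_sin.const_mul 2)
  · intro z
    have e1 : Ea V.1 N (-z) = Ea V.1 N z := by
      unfold Ea
      rw [neg_sq]
    have e2 : Pool.Agent.W346.HT.Qp N n y (-z) = Pool.Agent.W346.HT.Qp N n y z := by
      unfold Pool.Agent.W346.HT.Qp
      simp only [Complex.cos_neg]
    show Ea V.1 N (-z) * V.2 N (-z) * Pool.Agent.W346.HT.Qp N n y (-z) * (2 * Complex.sin (-z)) =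
      -(Ea V.1 N z * V.2 N z * Pool.Agent.W346.HT.Qp N n y z * (2 * Complex.sin z))
    rw [e1, e2, h2, Complex.sin_neg]
    ring

/-- the vertex has an entire even function -/
def Ok (V : Vx) : Prop := (∀ N, Differentiable ℂ (V.2 N)) ∧ ∀ N ψ, V.2 N (-ψ) = V.2 N ψ

theorem ArV_eq (N : ℕ) (V : Vx) (hV : Ok V) :
    ArV N V = (1 / (2 * π) : ℂ) • (Zg N * Uw N V * Zg N) := by
  ext x y
  simp only [Zg, Matrix.diagonal_mul, Matrix.mul_diagonal, Matrix.smul_apply, smul_eq_mul]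
  have hxN := x.isLt
  by_cases h : (y : ℕ) ≤ N - 1 - (x : ℕ)
  · have hle : y ≤ Fin.revPerm x := by
      rw [Fin.le_def, rev_val]
      exact h
    have : ArV N V x y = cV N V y (N - 1 - (x : ℕ)) := by
      rw [ArV, Matrix.submatrix_apply, MAV, id, if_pos hle, rev_val]
    rw [this, cV_rev N V hxN, Uw_apply, pow_add]
    ring
  · have hle : ¬ y ≤ Fin.revPerm x := by
      rw [Fin.le_def, rev_val]
      exact h
    have : ArV N V x y = 0 := by
      rw [ArV, Matrix.submatrix_apply, MAV, id, if_neg hle]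
    rw [this, Uw_apply, Uv_zero V (hV.1 N) (hV.2 N) hxN (by omega)]
    ring

theorem BrV_eq {N : ℕ} (hN : 2 ≤ N) (χ : ℂ) (hne : ∀ t : ℕ, 1 ≤ t → t < N → Ph N χ t ≠ 0)
    (V : Vx) (hV : Ok V) :
    BrV N χ V = ((N : ℂ) ^ 2 / (2 * π) : ℂ) • (Zg N * (Dmf N χ * Uw N V * Dmf N χ) * Zg N) := by
  ext y x
  simp only [Zg, Dmf, Matrix.diagonal_mul, Matrix.mul_diagonal, Matrix.smul_apply, smul_eq_mul]
  have hxN := x.isLt
  by_cases h : (y : ℕ) ≤ N - 1 - (x : ℕ)
  · have hle : y ≤ Fin.revPerm x := by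
      rw [Fin.le_def, rev_val]
      exact h
    have : BrV N χ V y x = (∏ t ∈ Ioc (y : ℕ) (N - 1 - (x : ℕ)), Ph N χ t) *
        cV N V y (N - 1 - (x : ℕ)) := by
      rw [BrV, Matrix.submatrix_apply, MBV, id, if_pos hle, rev_val]
    rw [this, cV_rev N V hxN, prod_PhF hN χ hne hxN h, Uw_apply, pow_add, Uv_symm]
    ring
  · have hle : ¬ y ≤ Fin.revPerm x := by
      rw [Fin.le_def, rev_val]
      exact h
    have : BrV N χ V y x = 0 := by
      rw [BrV, Matrix.submatrix_apply, MBV, id, if_neg hle]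
    rw [this, Uw_apply, Uv_symm, Uv_zero V (hV.1 N) (hV.2 N) hxN (by omega)]
    ring

/-- KFFV -/
theorem t_KFFV : S_KFFV := by
  intro N ls χ hN hl hA hne
  have e0 : itI (cw (wl ls)) N (2 * ls.length)
      (fun ψ => WkF (2 * ls.length) N χ ψ * YP ls N ψ) 0 =
      ((ls.map fun q => Mv N (Df N χ) q.1 * Mv N (Df N χ) q.2).prod).trace := by
    rw [← XV_gen (by omega) ls hl hA (Df N χ)]
    congr 1
    funext ψ
    congr 1
    unfold WkF
    refine Finset.prod_congr rfl fun i _ => ?_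
    rw [kF_eq, kD]
  have hok : ∀ q ∈ ls, Ok q.1 ∧ Ok q.2 := fun q hq =>
    ⟨⟨(hA q hq).1, (hA q hq).2.2.1⟩, ⟨(hA q hq).2.1, (hA q hq).2.2.2⟩⟩
  rw [e0, TV, ← trace_sub Fin.revPerm, ← lst_sub]
  have e1 : ∀ q : Vx × Vx, (MAV N q.1 * MBV N χ q.2).submatrix Fin.revPerm Fin.revPerm =
      ArV N q.1 * BrV N χ q.2 := by
    intro q
    rw [ArV, BrV, ← Matrix.submatrix_mul_equiv _ _ _ (Equiv.refl _) _]
    rfl
  simp only [e1]
  have hMv : ∀ V : Vx, Mv N (Df N χ) V = Uw N V * Dmf N χ := fun V => Mv_eq N (Df N χ) V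
  have e2 : ∀ q ∈ ls, ArV N q.1 * BrV N χ q.2 =
      ((N : ℂ) / (2 * π)) ^ 2 • (Zg N * (Mv N (Df N χ) q.1 * Mv N (Df N χ) q.2) * Zg N) := by
    intro q hq
    rw [ArV_eq N q.1 (hok q hq).1, BrV_eq hN χ hne q.2 (hok q hq).2, Matrix.smul_mul,
      Matrix.mul_smul, smul_smul, hMv, hMv]
    congr 1
    · ring
    · calc Zg N * Uw N q.1 * Zg N * (Zg N * (Dmf N χ * Uw N q.2 * Dmf N χ) * Zg N) =
          Zg N * Uw N q.1 * (Zg N * Zg N) * (Dmf N χ * Uw N q.2 * Dmf N χ) * Zg N := by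
            simp only [mul_assoc]
        _ = _ := by
            rw [Zg_sq, mul_one]
            simp only [mul_assoc]
  rw [List.map_congr_left e2]
  rw [lst_smul (((N : ℂ) / (2 * π)) ^ 2)
    (fun q : Vx × Vx => Zg N * (Mv N (Df N χ) q.1 * Mv N (Df N χ) q.2) * Zg N) ls,
    Matrix.trace_smul, ← pow_mul, smul_eq_mul]
  congr 1
  refine lst3 (Zg N) (Zg N) (fun q : Vx × Vx => Mv N (Df N χ) q.1 * Mv N (Df N χ) q.2) ls hl ?_
  intro q
  rw [Zg_sq, mul_one]

end Pool.Agent.Y899.DR
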